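import Pool.Agent.D0H77.EA.FinA

/-!
# Zeros of arbitrary sets of Dirichlet characters to one modulus; almost all characters

Let `q ≥ 1`, `d ∣ q`, `ψ` a character modulo `q`, and let `E` be an ARBITRARY set of primitive
characters modulo `q` of the form `ψ η`, `η` a character modulo `d` (for `d = q`: an arbitrary set
of primitive characters modulo `q`).  Let `0 < h ≤ 1`, `δ > 0`, `c(h) = h/2 + cot(h/√2)/√2`.
Unconditionally, uniformly for all `q`, `d`, `ψ`, `E`, `T` and `H ≤ T` with `H ≥ K`,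
`H ≥ K √(log (q T))`, `d (q T) ^ δ ≤ |E| H` and `(q T) ^ (2 h) ≤ |E| H²`, on average over `E` at
least the proportion `2 - c(h) - ε` of the zeros with ordinate in `(T, T + H]` are simple and on the
critical line, and at least `(3 - c(h))/2 - ε` are distinct.

As the set is arbitrary, it may be the set of the characters for which this fails: so the number of
the primitive characters modulo `q` which INDIVIDUALLY have fewer zeros of this kind is at most
`q (q T) ^ δ / H + (q T) ^ (2 h) / H²`.  Thus, for EVERY modulus `q` and every `T ≥ q ^ τ`, all but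
`q ^ (1 - δ')` of the primitive characters modulo `q` have, each of them, at least the proportion
`2 - c(h) - ε` of simple zeros on the critical line in `(T, 2 T]`, for any
`h < (1/2 + τ)/(1 + τ)`; this is positive for `τ ≥ 1/8`, more than 41 per cent for `T ≥ q`, and it
tends to 67.25 per cent for `τ → ∞`; for every `τ > 0` at least 46 per cent are distinct.  (For one
single character `χ` modulo `q` one needs `h < τ/(1 + τ)`.)

The proof: the trace inequality for the zeros (starting modules `Pool.Agent.H385R2`,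
`Pool.Agent.Y762`, `Pool.Agent.W354`) needs the mean square over `E` and the height of a prime sum
of length `X`.  The diagonal terms are the same for each character.  The off-diagonal terms are
bounded by the Cauchy-Schwarz inequality over `E`, completion to the whole coset and orthogonality:
this leaves the number of the solutions of `p r' ≡ p' r (mod d)` in primes `p ≠ r`, `p' ≠ r'` up to
`X`, weighted with the entries of the Gram matrix of the short interval in the height.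
-/

open Complex DirichletCharacter

set_option autoImplicit false

namespace Pool.Agent.Results.MP_f259ea_nt.ArbitrarySetsOfCharacters

section defs

variable {q : ℕ} [NeZero q]

/-- The zeros of `L(s, χ)` in the open critical strip with ordinate in `(T, T + H]`. -/
def zeros (χ : DirichletCharacter ℂ q) (T H : ℝ) : Set ℂ :=
  {s : ℂ | 0 < s.re ∧ s.re < 1 ∧ T < s.im ∧ s.im ≤ T + H ∧ LFunction χ s = 0}

/-- The multiplicity of the zero `s`. -/
noncomputable def mult (χ : DirichletCharacter ℂ q) (s : ℂ) : ℕ := analyticOrderNatAt (LFunction χ) s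

/-- The number of these zeros, counted with multiplicity. -/
noncomputable def N (T H : ℝ) (χ : DirichletCharacter ℂ q) : ℕ := ∑ᶠ s ∈ zeros χ T H, mult χ s

/-- The number of the distinct zeros among them. -/
noncomputable def Nd (T H : ℝ) (χ : DirichletCharacter ℂ q) : ℕ := (zeros χ T H).ncard

/-- The number of the simple zeros on the critical line among them. -/
noncomputable def Ns (T H : ℝ) (χ : DirichletCharacter ℂ q) : ℕ :=
  {s : ℂ | s ∈ zeros χ T H ∧ s.re = 1 / 2 ∧ mult χ s = 1}.ncard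

/-- The number of the distinct zeros off the critical line among them. -/
noncomputable def Noff (T H : ℝ) (χ : DirichletCharacter ℂ q) : ℕ :=
  {s : ℂ | s ∈ zeros χ T H ∧ s.re ≠ 1 / 2}.ncard

/-- The excess multiplicity: a zero of multiplicity `m` counts `max (m - (j + 1)) 0` if it is on the
critical line and `m - 1` if it is off the line (subtraction of natural numbers). -/
noncomputable def excess (j : ℕ) (T H : ℝ) (χ : DirichletCharacter ℂ q) : ℕ :=
  ∑ᶠ s ∈ zeros χ T H, (if s.re = 1 / 2 then mult χ s - (j + 1) else mult χ s - 1)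

/-- The family: the primitive characters modulo `q` which are the product of `ψ` and a character
modulo `d` (lifted to the modulus `q`). -/
def fam {d : ℕ} (hd : d ∣ q) (ψ : DirichletCharacter ℂ q) : Set (DirichletCharacter ℂ q) :=
  {χ | χ.IsPrimitive ∧ ∃ η : DirichletCharacter ℂ d, χ = ψ * changeLevel hd η}

/-- The sum of `f` over the set `F` of characters. -/
noncomputable def S (F : Set (DirichletCharacter ℂ q)) (f : DirichletCharacter ℂ q → ℕ) : ℝ :=
  ∑ᶠ χ ∈ F, (f χ : ℝ)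

end defs

/-- The function of Montgomery and Taylor, `c(1) = c_MT⁻¹ = 1.3274...`. -/
noncomputable def c (h : ℝ) : ℝ := h / 2 + Real.cot (h / Real.sqrt 2) / Real.sqrt 2

section

variable {q : ℕ} [NeZero q]

open Pool.Agent.D0H77.EM (FF mem_FF)

lemma fam_eq {d : ℕ} (hd : d ∣ q) (ψ : DirichletCharacter ℂ q) :
    fam hd ψ = (FF d ψ : Set (DirichletCharacter ℂ q)) := by
  ext χ
  rw [Finset.mem_coe, mem_FF]
  unfold fam
  rw [Set.mem_ofPred_eq]
  refine and_congr_right fun _ => ?_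
  rw [← mem_conductorSet_iff_conductor_dvd _ hd, mem_conductorSet_iff]
  constructor
  · rintro ⟨η, rfl⟩
    rw [mul_comm ψ, mul_inv_cancel_right]
    exact changeLevel_factorsThrough η hd
  · rintro ⟨h, η, hη⟩
    refine ⟨η, ?_⟩
    rw [← hη, mul_comm χ, mul_inv_cancel_left]

omit [NeZero q] in
lemma S_eq (E : Finset (DirichletCharacter ℂ q)) (f : DirichletCharacter ℂ q → ℕ) :
    S (E : Set (DirichletCharacter ℂ q)) f = ∑ χ ∈ E, (f χ : ℝ) := by
  unfold S
  exact finsum_mem_coe_finset _ _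

omit [NeZero q] in
lemma exists_finset (E : Set (DirichletCharacter ℂ q)) :
    ∃ F : Finset (DirichletCharacter ℂ q), (F : Set (DirichletCharacter ℂ q)) = E :=
  ⟨E.toFinite.toFinset, E.toFinite.coe_toFinset⟩

lemma zeros_eq (χ : DirichletCharacter ℂ q) (T H : ℝ) :
    zeros χ T H = H370.zset (H385.LF q χ) T (T + H) := by
  rw [H385.LF_eq]
  rfl

lemma N_eq (T H : ℝ) (χ : DirichletCharacter ℂ q) : N T H χ = H370.NN (H385.LF q χ) T (T + H) := by
  unfold N H370.NN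
  rw [zeros_eq, H385.LF_eq]
  rfl

lemma Nd_eq (T H : ℝ) (χ : DirichletCharacter ℂ q) : Nd T H χ = H370.Nd (H385.LF q χ) T (T + H) := by
  unfold Nd H370.Nd
  rw [zeros_eq]

lemma Ns_eq (T H : ℝ) (χ : DirichletCharacter ℂ q) : Ns T H χ = H370.Ns (H385.LF q χ) T (T + H) := by
  unfold Ns H370.Ns
  rw [zeros_eq, H385.LF_eq]
  rfl

lemma Noff_eq (T H : ℝ) (χ : DirichletCharacter ℂ q) :
    Noff T H χ = Pool.Agent.D0H77.EM.NF (H385.LF q χ) T (T + H) := by
  unfold Noff Pool.Agent.D0H77.EM.NF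
  rw [zeros_eq]

lemma excess_eq (j : ℕ) (T H : ℝ) (χ : DirichletCharacter ℂ q) :
    excess j T H χ = Pool.Agent.D0H77.EM.EX j (H385.LF q χ) T (T + H) := by
  unfold excess Pool.Agent.D0H77.EM.EX
  rw [zeros_eq, H385.LF_eq]
  rfl

/-- the set of zeros that are counted is finite -/
lemma zeros_finite {χ : DirichletCharacter ℂ q} (hχ : χ.IsPrimitive) {T H : ℝ} (hT : 1 ≤ T) :
    (zeros χ T H).Finite := by
  obtain ⟨A, hA, hgood⟩ := H385.good_dirichlet_U
  rw [zeros_eq, H385.LF_eq]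
  exact H385.zset_finite_U hA (by exact_mod_cast NeZero.one_le) (hgood q χ hχ) T (T + H) hT

/-- from an inequality on average over a set of exceptional characters to the number of them -/
lemma exc_bound (X : Set (DirichletCharacter ℂ q)) (B a b : ℝ) (hB : 0 ≤ B)
    (f g : DirichletCharacter ℂ q → ℕ) (hX : ∀ χ ∈ X, b * (g χ : ℝ) < a * (f χ : ℝ))
    (h : B < X.ncard → a * S X f ≤ b * S X g) : (X.ncard : ℝ) ≤ B := by
  by_contra hcon
  push Not at hcon
  have h1 := h hcon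
  obtain ⟨F, rfl⟩ := exists_finset X
  rw [S_eq, S_eq, Finset.mul_sum, Finset.mul_sum] at h1
  have hne : F.Nonempty := by
    rw [← Finset.card_pos]
    rw [Set.ncard_coe_finset] at hcon
    have : (0 : ℝ) < F.card := lt_of_le_of_lt hB hcon
    exact_mod_cast this
  have h2 := Finset.sum_lt_sum_of_nonempty hne (fun χ hχ => hX χ (Finset.mem_coe.2 hχ))
  linarith

end

open Pool.Agent.D0H77.EM (FF mem_FF)


/-- **Main theorem.**  (1)-(3): for all moduli `q`, all divisors `d` of `q`, all characters `ψ`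
modulo `q`, ALL subsets `E` of the family `fam hd ψ`, all `T` and all `H ≤ T` with `K ≤ H`,
`K √(log (q T)) ≤ H`, `d (q T) ^ δ ≤ |E| H` and `(q T) ^ (2 h) ≤ |E| H²`, the sums `S` being over
`E` and the zeros being those with ordinate in `(T, T + H]`:
(1) `(2 - c(h) - ε) S(N) ≤ S(Ns)`, the simple zeros on the critical line;
(2) `(2 j + 1 - c(h) - ε) S(N) + S(excess) + ((j² + 1)/2) S(Noff) ≤ j (j + 1) S(Nd)` for every
`j ≥ 1`, the distinct zeros;
(3) `(3 h/(3 + h²) - ε) S(N) ≤ S(Nd)`.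
(4) Hence at most `d (q T) ^ δ / H + (q T) ^ (2 h) / H²` characters `χ` of the family have
`Ns(χ) < (2 - c(h) - ε) N(χ)`, and the same for `j (j + 1) Nd(χ) < (2 j + 1 - c(h) - ε) N(χ)` and
for `Nd(χ) < (3 h/(3 + h²) - ε) N(χ)`.
(5) Almost all characters of every modulus: for `τ > 0` and `h < (1/2 + τ)/(1 + τ)` there are `K`
and `δ' > 0` such that for all `q` and all `T ≥ K` with `T ≥ q ^ τ` these inequalities for
`(T, 2 T]` hold for each primitive character modulo `q` with at most `q ^ (1 - δ')` exceptions.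
(6) For example: if `T ≥ K`, then with at most `q ^ (1 - δ')` exceptions the primitive characters
modulo `q` have `Ns ≥ N/100` if `T ≥ q ^ (1/8)`, and `Ns ≥ 0.41 N`, `Nd ≥ 0.7 N` if `T ≥ q`.
(7) `c` is decreasing on `(0, 1]`, `c(h) ≤ 1/h + h/3` and `c(1) ≤ 1.327503`. -/
theorem result :
    (∀ h ε δ : ℝ, 0 < h → h ≤ 1 → 0 < ε → 0 < δ → ∃ K : ℝ,
      ∀ (q : ℕ) [NeZero q] (d : ℕ) (hd : d ∣ q) (ψ : DirichletCharacter ℂ q)
        (E : Set (DirichletCharacter ℂ q)) (T H : ℝ), E ⊆ fam hd ψ →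
        K ≤ H → K * Real.sqrt (Real.log (q * T)) ≤ H → H ≤ T →
        d * (q * T) ^ δ ≤ E.ncard * H → (q * T) ^ (2 * h) ≤ E.ncard * H ^ 2 →
        (2 - c h - ε) * S E (N T H) ≤ S E (Ns T H)) ∧
    (∀ (j : ℕ) (h ε δ : ℝ), 1 ≤ j → 0 < h → h ≤ 1 → 0 < ε → 0 < δ → ∃ K : ℝ,
      ∀ (q : ℕ) [NeZero q] (d : ℕ) (hd : d ∣ q) (ψ : DirichletCharacter ℂ q)
        (E : Set (DirichletCharacter ℂ q)) (T H : ℝ), E ⊆ fam hd ψ →
        K ≤ H → K * Real.sqrt (Real.log (q * T)) ≤ H → H ≤ T →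
        d * (q * T) ^ δ ≤ E.ncard * H → (q * T) ^ (2 * h) ≤ E.ncard * H ^ 2 →
        (2 * j + 1 - c h - ε) * S E (N T H) + S E (excess j T H) +
          ((j : ℝ) ^ 2 + 1) / 2 * S E (Noff T H) ≤ j * (j + 1) * S E (Nd T H)) ∧
    (∀ h ε δ : ℝ, 0 < h → h ≤ 1 → 0 < ε → 0 < δ → ∃ K : ℝ,
      ∀ (q : ℕ) [NeZero q] (d : ℕ) (hd : d ∣ q) (ψ : DirichletCharacter ℂ q)
        (E : Set (DirichletCharacter ℂ q)) (T H : ℝ), E ⊆ fam hd ψ →
        K ≤ H → K * Real.sqrt (Real.log (q * T)) ≤ H → H ≤ T →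
        d * (q * T) ^ δ ≤ E.ncard * H → (q * T) ^ (2 * h) ≤ E.ncard * H ^ 2 →
        (3 * h / (3 + h ^ 2) - ε) * S E (N T H) ≤ S E (Nd T H)) ∧
    (∀ (j : ℕ) (h ε δ : ℝ), 1 ≤ j → 0 < h → h ≤ 1 → 0 < ε → 0 < δ → ∃ K : ℝ,
      ∀ (q : ℕ) [NeZero q] (d : ℕ) (hd : d ∣ q) (ψ : DirichletCharacter ℂ q) (T H : ℝ),
        K ≤ H → K * Real.sqrt (Real.log (q * T)) ≤ H → H ≤ T →
        ({χ ∈ fam hd ψ | (Ns T H χ : ℝ) < (2 - c h - ε) * N T H χ}.ncard : ℝ) ≤
          d * (q * T) ^ δ / H + (q * T) ^ (2 * h) / H ^ 2 ∧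
        ({χ ∈ fam hd ψ | j * (j + 1) * (Nd T H χ : ℝ) <
            (2 * j + 1 - c h - ε) * N T H χ}.ncard : ℝ) ≤
          d * (q * T) ^ δ / H + (q * T) ^ (2 * h) / H ^ 2 ∧
        ({χ ∈ fam hd ψ | (Nd T H χ : ℝ) < (3 * h / (3 + h ^ 2) - ε) * N T H χ}.ncard : ℝ) ≤
          d * (q * T) ^ δ / H + (q * T) ^ (2 * h) / H ^ 2) ∧
    (∀ (j : ℕ) (τ h ε : ℝ), 1 ≤ j → 0 < τ → 0 < h → h < (1 / 2 + τ) / (1 + τ) → 0 < ε →
      ∃ K δ' : ℝ, 0 < δ' ∧ ∀ (q : ℕ) [NeZero q] (T : ℝ), K ≤ T → (q : ℝ) ^ τ ≤ T →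
        ({χ : DirichletCharacter ℂ q | χ.IsPrimitive ∧
            ((Ns T T χ : ℝ) < (2 - c h - ε) * N T T χ ∨
              j * (j + 1) * (Nd T T χ : ℝ) < (2 * j + 1 - c h - ε) * N T T χ ∨
              (Nd T T χ : ℝ) < (3 * h / (3 + h ^ 2) - ε) * N T T χ)}.ncard : ℝ) ≤
          (q : ℝ) ^ (1 - δ')) ∧
    (∃ K δ' : ℝ, 0 < δ' ∧ ∀ (q : ℕ) [NeZero q] (T : ℝ), K ≤ T →
      ((q : ℝ) ^ (1 / 8 : ℝ) ≤ T →
        ({χ : DirichletCharacter ℂ q | χ.IsPrimitive ∧
            (Ns T T χ : ℝ) < 0.01 * N T T χ}.ncard : ℝ) ≤ (q : ℝ) ^ (1 - δ')) ∧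
      ((q : ℝ) ≤ T →
        ({χ : DirichletCharacter ℂ q | χ.IsPrimitive ∧ ((Ns T T χ : ℝ) < 0.41 * N T T χ ∨
            (Nd T T χ : ℝ) < 0.7 * N T T χ)}.ncard : ℝ) ≤ (q : ℝ) ^ (1 - δ'))) ∧
    ((∀ a b : ℝ, 0 < a → a ≤ b → b ≤ 1 → c b ≤ c a) ∧
      (∀ h : ℝ, 0 < h → h ≤ 1 → c h ≤ 1 / h + h / 3) ∧ c 1 ≤ 1.327503) := by
  have hfam : ∀ {q : ℕ} [NeZero q] {d : ℕ} (hd : d ∣ q) (ψ : DirichletCharacter ℂ q)
      (F : Finset (DirichletCharacter ℂ q)), (F : Set (DirichletCharacter ℂ q)) ⊆ fam hd ψ →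
      ∀ χ ∈ F, χ.IsPrimitive ∧ (χ * ψ⁻¹).conductor ∣ d := by
    intro q _ d hd ψ F hF χ hχ
    have h1 := hF (Finset.mem_coe.2 hχ)
    rw [fam_eq hd ψ, Finset.mem_coe, mem_FF] at h1
    exact h1
  have part1 : ∀ h ε δ : ℝ, 0 < h → h ≤ 1 → 0 < ε → 0 < δ → ∃ K : ℝ,
      ∀ (q : ℕ) [NeZero q] (d : ℕ) (hd : d ∣ q) (ψ : DirichletCharacter ℂ q)
        (E : Set (DirichletCharacter ℂ q)) (T H : ℝ), E ⊆ fam hd ψ →
        K ≤ H → K * Real.sqrt (Real.log (q * T)) ≤ H → H ≤ T →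
        d * (q * T) ^ δ ≤ E.ncard * H → (q * T) ^ (2 * h) ≤ E.ncard * H ^ 2 →
        (2 - c h - ε) * S E (N T H) ≤ S E (Ns T H) := by
    intro h ε δ hh0 hh1 hε hδ
    obtain ⟨K, _, hK⟩ := Pool.Agent.D0H77.EA.fin_s h ε δ hh0 hh1 hε hδ
    refine ⟨K, fun q _ d hd ψ E T H hE h1 h2 h3 h4 h5 => ?_⟩
    obtain ⟨F, rfl⟩ := exists_finset E
    rw [Set.ncard_coe_finset] at h4 h5
    rw [S_eq, S_eq]
    simp only [N_eq, Ns_eq]
    exact hK q d hd ψ F (hfam hd ψ F hE) T H h1 h2 h3 h4 h5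
  have part2 : ∀ (j : ℕ) (h ε δ : ℝ), 1 ≤ j → 0 < h → h ≤ 1 → 0 < ε → 0 < δ → ∃ K : ℝ,
      ∀ (q : ℕ) [NeZero q] (d : ℕ) (hd : d ∣ q) (ψ : DirichletCharacter ℂ q)
        (E : Set (DirichletCharacter ℂ q)) (T H : ℝ), E ⊆ fam hd ψ →
        K ≤ H → K * Real.sqrt (Real.log (q * T)) ≤ H → H ≤ T →
        d * (q * T) ^ δ ≤ E.ncard * H → (q * T) ^ (2 * h) ≤ E.ncard * H ^ 2 →
        (2 * j + 1 - c h - ε) * S E (N T H) + S E (excess j T H) +
          ((j : ℝ) ^ 2 + 1) / 2 * S E (Noff T H) ≤ j * (j + 1) * S E (Nd T H) := by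
    intro j h ε δ _ hh0 hh1 hε hδ
    obtain ⟨K, _, hK⟩ := Pool.Agent.D0H77.EA.fin_j j h ε δ hh0 hh1 hε hδ
    refine ⟨K, fun q _ d hd ψ E T H hE h1 h2 h3 h4 h5 => ?_⟩
    obtain ⟨F, rfl⟩ := exists_finset E
    rw [Set.ncard_coe_finset] at h4 h5
    rw [S_eq, S_eq, S_eq, S_eq]
    simp only [N_eq, Nd_eq, Noff_eq, excess_eq]
    exact hK q d hd ψ F (hfam hd ψ F hE) T H h1 h2 h3 h4 h5
  have part3 : ∀ h ε δ : ℝ, 0 < h → h ≤ 1 → 0 < ε → 0 < δ → ∃ K : ℝ,
      ∀ (q : ℕ) [NeZero q] (d : ℕ) (hd : d ∣ q) (ψ : DirichletCharacter ℂ q)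
        (E : Set (DirichletCharacter ℂ q)) (T H : ℝ), E ⊆ fam hd ψ →
        K ≤ H → K * Real.sqrt (Real.log (q * T)) ≤ H → H ≤ T →
        d * (q * T) ^ δ ≤ E.ncard * H → (q * T) ^ (2 * h) ≤ E.ncard * H ^ 2 →
        (3 * h / (3 + h ^ 2) - ε) * S E (N T H) ≤ S E (Nd T H) := by
    intro h ε δ hh0 hh1 hε hδ
    obtain ⟨K, _, hK⟩ := Pool.Agent.D0H77.EA.fin_pos h ε δ hh0 hh1 hε hδ
    refine ⟨K, fun q _ d hd ψ E T H hE h1 h2 h3 h4 h5 => ?_⟩
    obtain ⟨F, rfl⟩ := exists_finset E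
    rw [Set.ncard_coe_finset] at h4 h5
    rw [S_eq, S_eq]
    simp only [N_eq, Nd_eq]
    exact hK q d hd ψ F (hfam hd ψ F hE) T H h1 h2 h3 h4 h5
  have nn : ∀ {q : ℕ} [NeZero q] (E : Set (DirichletCharacter ℂ q))
      (f : DirichletCharacter ℂ q → ℕ), 0 ≤ S E f := by
    intro q _ E f
    unfold S
    exact finsum_nonneg fun χ => finsum_nonneg fun _ => Nat.cast_nonneg _
  have part4 : ∀ (j : ℕ) (h ε δ : ℝ), 1 ≤ j → 0 < h → h ≤ 1 → 0 < ε → 0 < δ → ∃ K : ℝ,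
      ∀ (q : ℕ) [NeZero q] (d : ℕ) (hd : d ∣ q) (ψ : DirichletCharacter ℂ q) (T H : ℝ),
        K ≤ H → K * Real.sqrt (Real.log (q * T)) ≤ H → H ≤ T →
        ({χ ∈ fam hd ψ | (Ns T H χ : ℝ) < (2 - c h - ε) * N T H χ}.ncard : ℝ) ≤
          d * (q * T) ^ δ / H + (q * T) ^ (2 * h) / H ^ 2 ∧
        ({χ ∈ fam hd ψ | j * (j + 1) * (Nd T H χ : ℝ) <
            (2 * j + 1 - c h - ε) * N T H χ}.ncard : ℝ) ≤
          d * (q * T) ^ δ / H + (q * T) ^ (2 * h) / H ^ 2 ∧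
        ({χ ∈ fam hd ψ | (Nd T H χ : ℝ) < (3 * h / (3 + h ^ 2) - ε) * N T H χ}.ncard : ℝ) ≤
          d * (q * T) ^ δ / H + (q * T) ^ (2 * h) / H ^ 2 := by
    intro j h ε δ hj hh0 hh1 hε hδ
    obtain ⟨K1, hK1⟩ := part1 h ε δ hh0 hh1 hε hδ
    obtain ⟨K2, hK2⟩ := part2 j h ε δ hj hh0 hh1 hε hδ
    obtain ⟨K3, hK3⟩ := part3 h ε δ hh0 hh1 hε hδ
    obtain ⟨K, hKd⟩ : ∃ K, K = max (max K1 K2) (max K3 1) := ⟨_, rfl⟩
    have a1 : K1 ≤ K := hKd ▸ (le_max_left _ _).trans (le_max_left _ _)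
    have a2 : K2 ≤ K := hKd ▸ (le_max_right _ _).trans (le_max_left _ _)
    have a3 : K3 ≤ K := hKd ▸ (le_max_left _ _).trans (le_max_right _ _)
    have a4 : 1 ≤ K := hKd ▸ (le_max_right _ _).trans (le_max_right _ _)
    refine ⟨K, fun q _ d hd ψ T H h1 h2 h3 => ?_⟩
    have hH0 : 0 < H := by linarith
    have hT0 : 0 < T := by linarith
    have hq0 : (0 : ℝ) < q := by exact_mod_cast Nat.pos_of_ne_zero (NeZero.ne q)
    have hqT : 0 < (q : ℝ) * T := by positivity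
    have hsq : 0 ≤ Real.sqrt (Real.log (q * T)) := Real.sqrt_nonneg _
    have b1 : 0 ≤ d * ((q : ℝ) * T) ^ δ / H := by positivity
    have b2 : 0 ≤ ((q : ℝ) * T) ^ (2 * h) / H ^ 2 := by positivity
    have hB : 0 ≤ d * ((q : ℝ) * T) ^ δ / H + ((q : ℝ) * T) ^ (2 * h) / H ^ 2 := by positivity
    have cond : ∀ X : Set (DirichletCharacter ℂ q),
        d * ((q : ℝ) * T) ^ δ / H + ((q : ℝ) * T) ^ (2 * h) / H ^ 2 < X.ncard →
        d * ((q : ℝ) * T) ^ δ ≤ X.ncard * H ∧ ((q : ℝ) * T) ^ (2 * h) ≤ X.ncard * H ^ 2 := by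
      intro X hX
      constructor
      · rw [← div_le_iff₀ hH0]; linarith
      · rw [← div_le_iff₀ (by positivity)]; linarith
    refine ⟨?_, ?_, ?_⟩
    · refine exc_bound _ _ (2 - c h - ε) 1 hB (N T H) (Ns T H) ?_ ?_
      · intro χ hχ
        rw [one_mul]
        exact hχ.2
      · intro hX
        rw [one_mul]
        exact hK1 q d hd ψ _ T H (fun χ hχ => hχ.1) (a1.trans h1)
          ((mul_le_mul_of_nonneg_right a1 hsq).trans h2) h3 (cond _ hX).1 (cond _ hX).2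
    · refine exc_bound _ _ (2 * j + 1 - c h - ε) (j * (j + 1)) hB (N T H) (Nd T H) ?_ ?_
      · intro χ hχ
        exact hχ.2
      · intro hX
        have h5 := hK2 q d hd ψ _ T H (fun χ hχ => hχ.1) (a2.trans h1)
          ((mul_le_mul_of_nonneg_right a2 hsq).trans h2) h3 (cond _ hX).1 (cond _ hX).2
        have n1 := nn {χ ∈ fam hd ψ | j * (j + 1) * (Nd T H χ : ℝ) <
            (2 * j + 1 - c h - ε) * N T H χ} (excess j T H)
        have n2 := mul_nonneg (show 0 ≤ ((j : ℝ) ^ 2 + 1) / 2 by positivity)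
          (nn {χ ∈ fam hd ψ | j * (j + 1) * (Nd T H χ : ℝ) <
            (2 * j + 1 - c h - ε) * N T H χ} (Noff T H))
        linarith
    · refine exc_bound _ _ (3 * h / (3 + h ^ 2) - ε) 1 hB (N T H) (Nd T H) ?_ ?_
      · intro χ hχ
        rw [one_mul]
        exact hχ.2
      · intro hX
        rw [one_mul]
        exact hK3 q d hd ψ _ T H (fun χ hχ => hχ.1) (a3.trans h1)
          ((mul_le_mul_of_nonneg_right a3 hsq).trans h2) h3 (cond _ hX).1 (cond _ hX).2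
  have part5 : ∀ (j : ℕ) (τ h ε : ℝ), 1 ≤ j → 0 < τ → 0 < h → h < (1 / 2 + τ) / (1 + τ) → 0 < ε →
      ∃ K δ' : ℝ, 0 < δ' ∧ ∀ (q : ℕ) [NeZero q] (T : ℝ), K ≤ T → (q : ℝ) ^ τ ≤ T →
        ({χ : DirichletCharacter ℂ q | χ.IsPrimitive ∧
            ((Ns T T χ : ℝ) < (2 - c h - ε) * N T T χ ∨
              j * (j + 1) * (Nd T T χ : ℝ) < (2 * j + 1 - c h - ε) * N T T χ ∨
              (Nd T T χ : ℝ) < (3 * h / (3 + h ^ 2) - ε) * N T T χ)}.ncard : ℝ) ≤
          (q : ℝ) ^ (1 - δ') := by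
    intro j τ h ε hj hτ hh0 hhτ hε
    rw [lt_div_iff₀ (by linarith)] at hhτ
    have hh1 : h < 1 := by nlinarith
    -- the gap
    obtain ⟨g, hg⟩ : ∃ g : ℝ, g = (1 + 2 * τ - 2 * h * (1 + τ)) / 2 := ⟨_, rfl⟩
    have hg0 : 0 < g := by rw [hg]; linarith
    obtain ⟨δ, hδ0, hδ1, hδ2⟩ : ∃ δ : ℝ, 0 < δ ∧ δ ≤ g ∧ 2 * δ / τ + δ ≤ 1 / 2 := by
      refine ⟨min g (1 / (2 * (2 / τ + 1))), lt_min hg0 (by positivity), min_le_left _ _, ?_⟩
      have h1 := min_le_right g (1 / (2 * (2 / τ + 1)))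
      have h2 : 2 * min g (1 / (2 * (2 / τ + 1))) / τ + min g (1 / (2 * (2 / τ + 1))) =
          min g (1 / (2 * (2 / τ + 1))) * (2 / τ + 1) := by ring
      rw [h2]
      calc _ ≤ 1 / (2 * (2 / τ + 1)) * (2 / τ + 1) :=
            mul_le_mul_of_nonneg_right h1 (by positivity)
        _ = 1 / 2 := by field_simp
    obtain ⟨K4, hK4⟩ := part4 j h ε δ hj hh0 hh1.le hε hδ0
    -- the thresholds
    obtain ⟨e, he⟩ : ∃ e : ℝ, e = max (2 * h - 1 + δ) 0 := ⟨_, rfl⟩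
    have he0 : 0 ≤ e := he ▸ le_max_right _ _
    obtain ⟨w, hw⟩ : ∃ w : ℝ, w = 2 - 2 * h - e / τ := ⟨_, rfl⟩
    have hw0 : 0 < w := by
      have h1 : e < τ * (2 - 2 * h) := by
        rw [he]
        apply max_lt
        · have : δ < 1 + 2 * τ - 2 * h * (1 + τ) := by
            have : g < 1 + 2 * τ - 2 * h * (1 + τ) := by rw [hg]; linarith
            linarith
          linarith
        · exact mul_pos hτ (by linarith)
      have h2 : e / τ < 2 - 2 * h := by rw [div_lt_iff₀ hτ]; linarith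
      rw [hw]; linarith
    have hlogT : ∀ (q : ℕ) [NeZero q] (T : ℝ), 1 ≤ T → (q : ℝ) ^ τ ≤ T → (q : ℝ) ≤ T ^ (1 / τ) := by
      intro q _ T hT hqT
      have hq0 : (0 : ℝ) < q := by exact_mod_cast Nat.pos_of_ne_zero (NeZero.ne q)
      have h1 := Real.rpow_le_rpow (by positivity) hqT (show 0 ≤ 1 / τ by positivity)
      rw [← Real.rpow_mul hq0.le, mul_one_div_cancel hτ.ne', Real.rpow_one] at h1
      exact h1
    refine ⟨max (max (36 : ℝ) (6 ^ (1 / w))) (max (max K4 1) ((max K4 1) ^ 2 * (1 + 1 / τ))), δ,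
      hδ0, fun q _ T hKT hqT => ?_⟩
    have t1 : 36 ≤ T := ((le_max_left _ _).trans (le_max_left _ _)).trans hKT
    have t2 : (6 : ℝ) ^ (1 / w) ≤ T := ((le_max_right _ _).trans (le_max_left _ _)).trans hKT
    have t3 : max K4 1 ≤ T := ((le_max_left _ _).trans (le_max_right _ _)).trans hKT
    have t4 : (max K4 1) ^ 2 * (1 + 1 / τ) ≤ T :=
      ((le_max_right _ _).trans (le_max_right _ _)).trans hKT
    have hT1 : 1 ≤ T := by linarith
    have hT0 : 0 < T := by linarith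
    have hq1 : (1 : ℝ) ≤ q := by exact_mod_cast NeZero.one_le
    have hq0 : (0 : ℝ) < q := by linarith
    have hqTpos : 0 < (q : ℝ) * T := by positivity
    have hqle := hlogT q T hT1 hqT
    have hqpow : ∀ x : ℝ, 0 ≤ x → (q : ℝ) ^ x ≤ T ^ (x / τ) := by
      intro x hx
      have h1 := Real.rpow_le_rpow hq0.le hqle hx
      rw [← Real.rpow_mul hT0.le] at h1
      have e1 : 1 / τ * x = x / τ := by ring
      rwa [e1] at h1
    have hsqrt : max K4 1 * Real.sqrt (Real.log (q * T)) ≤ T := by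
      have h1 : Real.log (q * T) ≤ (1 + 1 / τ) * T := by
        rw [Real.log_mul hq0.ne' hT0.ne']
        have h2 := Real.log_le_log hq0 hqle
        rw [Real.log_rpow hT0] at h2
        have h3 := Real.log_le_sub_one_of_pos hT0
        have h4 : 1 / τ * Real.log T ≤ 1 / τ * T :=
          mul_le_mul_of_nonneg_left (by linarith) (by positivity)
        linarith
      have h5 : Real.sqrt (Real.log (q * T)) ≤ Real.sqrt ((1 + 1 / τ) * T) := Real.sqrt_le_sqrt h1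
      have h6 : 0 ≤ max K4 1 := zero_le_one.trans (le_max_right _ _)
      refine (mul_le_mul_of_nonneg_left h5 h6).trans ?_
      apply le_of_sq_le_sq _ hT0.le
      rw [mul_pow, Real.sq_sqrt (by positivity)]
      calc _ = ((max K4 1) ^ 2 * (1 + 1 / τ)) * T := by ring
        _ ≤ T * T := mul_le_mul_of_nonneg_right t4 hT0.le
        _ = T ^ 2 := by ring
    have hsq : 0 ≤ Real.sqrt (Real.log (q * T)) := Real.sqrt_nonneg _
    have h4 := hK4 q q (dvd_refl q) 1 T T ((le_max_left _ _).trans t3)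
      ((mul_le_mul_of_nonneg_right (le_max_left _ _) hsq).trans hsqrt) le_rfl
    have hB : q * ((q : ℝ) * T) ^ δ / T + ((q : ℝ) * T) ^ (2 * h) / T ^ 2 ≤
        (q : ℝ) ^ (1 - δ) / 3 := by
      have c1 : q * ((q : ℝ) * T) ^ δ / T ≤ (q : ℝ) ^ (1 - δ) / 6 := by
        rw [div_le_iff₀ hT0, Real.mul_rpow hq0.le hT0.le]
        have d1 : (q : ℝ) * ((q : ℝ) ^ δ * T ^ δ) = (q : ℝ) ^ (1 - δ) * ((q : ℝ) ^ (2 * δ) * T ^ δ) := by
          have : (q : ℝ) * (q : ℝ) ^ δ = (q : ℝ) ^ (1 - δ) * (q : ℝ) ^ (2 * δ) := by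
            rw [← Real.rpow_add hq0]
            nth_rw 1 [← Real.rpow_one (q : ℝ)]
            rw [← Real.rpow_add hq0]
            congr 1
            ring
          rw [← mul_assoc, this, mul_assoc]
        have d2 : (q : ℝ) ^ (2 * δ) * T ^ δ ≤ T ^ (1 / 2 : ℝ) := by
          calc _ ≤ T ^ (2 * δ / τ) * T ^ δ :=
                mul_le_mul_of_nonneg_right (hqpow _ (by positivity)) (by positivity)
            _ = T ^ (2 * δ / τ + δ) := by rw [Real.rpow_add hT0]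
            _ ≤ _ := Real.rpow_le_rpow_of_exponent_le hT1 hδ2
        have d3 : 6 * T ^ (1 / 2 : ℝ) ≤ T := by
          rw [← Real.sqrt_eq_rpow]
          have h6 : 6 ≤ Real.sqrt T := Real.le_sqrt_of_sq_le (by linarith)
          calc 6 * Real.sqrt T ≤ Real.sqrt T * Real.sqrt T :=
                mul_le_mul_of_nonneg_right h6 (Real.sqrt_nonneg _)
            _ = T := Real.mul_self_sqrt hT0.le
        rw [d1]
        calc _ ≤ (q : ℝ) ^ (1 - δ) * T ^ (1 / 2 : ℝ) :=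
              mul_le_mul_of_nonneg_left d2 (by positivity)
          _ ≤ (q : ℝ) ^ (1 - δ) * (T / 6) :=
              mul_le_mul_of_nonneg_left (by linarith) (by positivity)
          _ = _ := by ring
      have c2 : ((q : ℝ) * T) ^ (2 * h) / T ^ 2 ≤ (q : ℝ) ^ (1 - δ) / 6 := by
        rw [div_le_iff₀ (by positivity), Real.mul_rpow hq0.le hT0.le]
        have d1 : (q : ℝ) ^ (2 * h) ≤ (q : ℝ) ^ (1 - δ) * T ^ (e / τ) := by
          have d2 : (q : ℝ) ^ (2 * h) = (q : ℝ) ^ (1 - δ) * (q : ℝ) ^ (2 * h - 1 + δ) := by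
            rw [← Real.rpow_add hq0]
            congr 1
            ring
          rw [d2]
          refine mul_le_mul_of_nonneg_left ?_ (by positivity)
          refine le_trans ?_ (hqpow e he0)
          exact Real.rpow_le_rpow_of_exponent_le hq1 (he ▸ le_max_left _ _)
        have d3 : 6 ≤ T ^ w := by
          have h6 := Real.rpow_le_rpow (by positivity) t2 hw0.le
          rw [← Real.rpow_mul (by norm_num), one_div_mul_cancel hw0.ne', Real.rpow_one] at h6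
          exact h6
        have d4 : T ^ (e / τ) * T ^ (2 * h) * T ^ w = T ^ 2 := by
          rw [← Real.rpow_add hT0, ← Real.rpow_add hT0, hw]
          have : e / τ + 2 * h + (2 - 2 * h - e / τ) = ((2 : ℕ) : ℝ) := by push_cast; ring
          rw [this, Real.rpow_natCast]
        have d5 : 0 < T ^ (e / τ) * T ^ (2 * h) := by positivity
        have d6 : T ^ (e / τ) * T ^ (2 * h) * 6 ≤ T ^ 2 := by
          rw [← d4]
          exact mul_le_mul_of_nonneg_left d3 d5.le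
        calc (q : ℝ) ^ (2 * h) * T ^ (2 * h) ≤ ((q : ℝ) ^ (1 - δ) * T ^ (e / τ)) * T ^ (2 * h) :=
              mul_le_mul_of_nonneg_right d1 (by positivity)
          _ = (q : ℝ) ^ (1 - δ) * (T ^ (e / τ) * T ^ (2 * h)) := by ring
          _ ≤ (q : ℝ) ^ (1 - δ) * (T ^ 2 / 6) :=
              mul_le_mul_of_nonneg_left (by linarith) (by positivity)
          _ = _ := by ring
      linarith
    obtain ⟨r1, r2, r3⟩ := h4
    have hfq : ∀ χ : DirichletCharacter ℂ q, χ.IsPrimitive → χ ∈ fam (dvd_refl q) 1 := by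
      intro χ hχ
      refine ⟨hχ, χ, ?_⟩
      rw [changeLevel_self, one_mul]
    have hsub : {χ : DirichletCharacter ℂ q | χ.IsPrimitive ∧
            ((Ns T T χ : ℝ) < (2 - c h - ε) * N T T χ ∨
              j * (j + 1) * (Nd T T χ : ℝ) < (2 * j + 1 - c h - ε) * N T T χ ∨
              (Nd T T χ : ℝ) < (3 * h / (3 + h ^ 2) - ε) * N T T χ)} ⊆
        {χ ∈ fam (dvd_refl q) 1 | (Ns T T χ : ℝ) < (2 - c h - ε) * N T T χ} ∪
        ({χ ∈ fam (dvd_refl q) 1 | j * (j + 1) * (Nd T T χ : ℝ) <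
            (2 * j + 1 - c h - ε) * N T T χ} ∪
        {χ ∈ fam (dvd_refl q) 1 | (Nd T T χ : ℝ) < (3 * h / (3 + h ^ 2) - ε) * N T T χ}) := by
      rintro χ ⟨hχ, h5 | h5 | h5⟩
      · exact Or.inl ⟨hfq χ hχ, h5⟩
      · exact Or.inr (Or.inl ⟨hfq χ hχ, h5⟩)
      · exact Or.inr (Or.inr ⟨hfq χ hχ, h5⟩)
    have h5 := Set.ncard_le_ncard hsub (Set.toFinite _)
    have h6 := h5.trans ((Set.ncard_union_le _ _).trans (Nat.add_le_add_left (Set.ncard_union_le _ _) _))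
    have h7 : ({χ : DirichletCharacter ℂ q | χ.IsPrimitive ∧
            ((Ns T T χ : ℝ) < (2 - c h - ε) * N T T χ ∨
              j * (j + 1) * (Nd T T χ : ℝ) < (2 * j + 1 - c h - ε) * N T T χ ∨
              (Nd T T χ : ℝ) < (3 * h / (3 + h ^ 2) - ε) * N T T χ)}.ncard : ℝ) ≤
        ({χ ∈ fam (dvd_refl q) 1 | (Ns T T χ : ℝ) < (2 - c h - ε) * N T T χ}.ncard : ℝ) +
        (({χ ∈ fam (dvd_refl q) 1 | j * (j + 1) * (Nd T T χ : ℝ) <
            (2 * j + 1 - c h - ε) * N T T χ}.ncard : ℝ) +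
        ({χ ∈ fam (dvd_refl q) 1 | (Nd T T χ : ℝ) < (3 * h / (3 + h ^ 2) - ε) *
            N T T χ}.ncard : ℝ)) := by
      exact_mod_cast h6
    linarith
  have c1 : c 1 ≤ 1.327503 := Pool.Agent.N880.HD.cH_le le_rfl one_le_two
  refine ⟨part1, part2, part3, part4, part5, ?_,
    fun a b h1 h2 h3 => Pool.Agent.N880.HD.cH_anti h1 h2 (by linarith),
    Pool.Agent.D0H77.EM.cH_le', c1⟩
  obtain ⟨K1, δ1, hδ1, hK1⟩ := part5 1 (1 / 8) 0.555 0.001 le_rfl (by norm_num) (by norm_num)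
    (by norm_num) (by norm_num)
  obtain ⟨K2, δ2, hδ2, hK2⟩ := part5 1 1 0.749 0.001 le_rfl (by norm_num) (by norm_num)
    (by norm_num) (by norm_num)
  have hc1 : c 0.555 ≤ 1.987 := by
    refine (Pool.Agent.D0H77.EM.cH_le' 0.555 (by norm_num) (by norm_num)).trans ?_
    norm_num
  have hc2 : c 0.749 ≤ 1.585 := by
    refine (Pool.Agent.D0H77.EM.cH_le' 0.749 (by norm_num) (by norm_num)).trans ?_
    norm_num
  refine ⟨max K1 K2, min δ1 δ2, lt_min hδ1 hδ2, fun q _ T hT => ⟨fun hq => ?_, fun hq => ?_⟩⟩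
  · have h1 := hK1 q T ((le_max_left _ _).trans hT) hq
    have hq1 : (1 : ℝ) ≤ q := by exact_mod_cast NeZero.one_le
    have h2 : (q : ℝ) ^ (1 - δ1) ≤ (q : ℝ) ^ (1 - min δ1 δ2) :=
      Real.rpow_le_rpow_of_exponent_le hq1 (by have := min_le_left δ1 δ2; linarith)
    refine le_trans ?_ (h1.trans h2)
    refine Nat.cast_le.2 (Set.ncard_le_ncard ?_ (Set.toFinite _))
    rintro χ ⟨hχ, h3⟩
    refine ⟨hχ, Or.inl (lt_of_lt_of_le h3 ?_)⟩
    refine mul_le_mul_of_nonneg_right ?_ (Nat.cast_nonneg _)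
    norm_num at hc1 ⊢
    linarith
  · have h1 := hK2 q T ((le_max_right _ _).trans hT) (by rw [Real.rpow_one]; exact hq)
    have hq1 : (1 : ℝ) ≤ q := by exact_mod_cast NeZero.one_le
    have h2 : (q : ℝ) ^ (1 - δ2) ≤ (q : ℝ) ^ (1 - min δ1 δ2) :=
      Real.rpow_le_rpow_of_exponent_le hq1 (by have := min_le_right δ1 δ2; linarith)
    refine le_trans ?_ (h1.trans h2)
    refine Nat.cast_le.2 (Set.ncard_le_ncard ?_ (Set.toFinite _))
    rintro χ ⟨hχ, h3 | h3⟩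
    · refine ⟨hχ, Or.inl (lt_of_lt_of_le h3 ?_)⟩
      refine mul_le_mul_of_nonneg_right ?_ (Nat.cast_nonneg _)
      norm_num at hc2 ⊢
      linarith
    · refine ⟨hχ, Or.inr (Or.inl ?_)⟩
      push_cast
      have h4 : (2 * 1 + 1 - c 0.749 - 0.001) * (N T T χ : ℝ) ≥ 1.4 * (N T T χ : ℝ) := by
        refine mul_le_mul_of_nonneg_right ?_ (Nat.cast_nonneg _)
        norm_num at hc2 ⊢
        linarith
      linarith

end Pool.Agent.Results.MP_f259ea_nt.ArbitrarySetsOfCharacters
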