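import Pool.Agent.D0H77.ES.FinS

/-!
# Zeros of the primitive characters in a coset: all moduli, all heights, short intervals

Let `q ≥ 1`, `d ∣ q`, let `ψ` be a character modulo `q`, and let `F` be the set of the primitive
characters modulo `q` of the form `ψ η`, `η` a character modulo `d`.  (For `d = q` these are ALL
primitive characters of the single modulus `q`; for `d = 1` and `ψ` primitive it is `ψ` alone; for
`q = p ^ k`, `d = p ^ j` it is a `p`-adically short family.)  Let `0 < h ≤ 1` and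
`c(h) = h/2 + cot(h/√2)/√2`.  Unconditionally, uniformly for all `q`, `d`, `ψ`, `T` and all `H ≤ T`
with `H ≥ K √(log (q T))`, `H ≥ K` and `(q T) ^ h ≤ d H`, on average over `F` at least the
proportion `2 - c(h) - ε` of the zeros with ordinate in `(T, T + H]` are simple and on the critical
line, and at least the proportion `(3 - c(h))/2 - ε` are distinct.  For every `h > 0` a positive
proportion, at least `3h/(3 + h²) - ε`, is distinct.

In particular, for EVERY single modulus `q`, all primitive characters modulo `q`, and every interval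
`(T, T + H]` with `H ≤ T` and `(T/H) ^ K ≤ q T` (thus `H = T`; thus also EVERY interval at the heights
`T ≤ q ^ (1/K)`) whose length is at least `K + K √(log (q T))`, more than 67.24 per cent of all
zeros are simple and on the critical line and more than 83.62 per cent are distinct.

For the dyadic intervals `H = T`, with `T ≥ C m (log q)²`, `m` the index of the coset, the theorem is
in essence in the starting library (`MP_0f5a55_nt.SimpleZerosEveryAbelianField`); new are the short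
intervals at every height, and that `T` and `H` need not be large in terms of the index.

The proof: the trace inequality for the zeros with no hypothesis on zeros off the line (starting
modules `Pool.Agent.H385R2`, `Pool.Agent.Y762`, and `Pool.Agent.W354` for slowly varying
conductors), with a parameter `j`; a vertical shift of the L-functions, which makes the intervals
short; Gaussian windows in the height (`Pool.Agent.N880.HD`) which reduce the mean square of the
prime sum to short blocks of integers; and, in such a block, orthogonality in the coset, with Möbius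
inversion over the imprimitive characters and a lower bound for the number of primitive characters
in a coset.
-/

open Complex DirichletCharacter

set_option autoImplicit false

namespace Pool.Agent.Results.MP_f259ea_nt.HybridCosetFamilies

section defs

variable {q : ℕ} [NeZero q]

/-- The zeros of `L(s, χ)` in the open critical strip with ordinate in `(T, T + H]`. -/
def zeros (χ : DirichletCharacter ℂ q) (T H : ℝ) : Set ℂ :=
  {s : ℂ | 0 < s.re ∧ s.re < 1 ∧ T < s.im ∧ s.im ≤ T + H ∧ LFunction χ s = 0}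

/-- The multiplicity of the zero `s`. -/
noncomputable def mult (χ : DirichletCharacter ℂ q) (s : ℂ) : ℕ := analyticOrderNatAt (LFunction χ) s

/-- The number of these zeros, counted with multiplicity. -/
noncomputable def N (T H : ℝ) (χ : DirichletCharacter ℂ q) : ℕ := ∑ᶠ s ∈ zeros χ T H, mult χ s

/-- The number of the distinct zeros among them. -/
noncomputable def Nd (T H : ℝ) (χ : DirichletCharacter ℂ q) : ℕ := (zeros χ T H).ncard

/-- The number of the simple zeros on the critical line among them. -/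
noncomputable def Ns (T H : ℝ) (χ : DirichletCharacter ℂ q) : ℕ :=
  {s : ℂ | s ∈ zeros χ T H ∧ s.re = 1 / 2 ∧ mult χ s = 1}.ncard

/-- The number of the distinct zeros off the critical line among them. -/
noncomputable def Noff (T H : ℝ) (χ : DirichletCharacter ℂ q) : ℕ :=
  {s : ℂ | s ∈ zeros χ T H ∧ s.re ≠ 1 / 2}.ncard

/-- The excess multiplicity: a zero of multiplicity `m` counts `max (m - (j + 1)) 0` if it is on the
critical line and `m - 1` if it is off the line (subtraction of natural numbers). -/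
noncomputable def excess (j : ℕ) (T H : ℝ) (χ : DirichletCharacter ℂ q) : ℕ :=
  ∑ᶠ s ∈ zeros χ T H, (if s.re = 1 / 2 then mult χ s - (j + 1) else mult χ s - 1)

/-- The family: the primitive characters modulo `q` which are the product of `ψ` and a character
modulo `d` (lifted to the modulus `q`). -/
def fam {d : ℕ} (hd : d ∣ q) (ψ : DirichletCharacter ℂ q) : Set (DirichletCharacter ℂ q) :=
  {χ | χ.IsPrimitive ∧ ∃ η : DirichletCharacter ℂ d, χ = ψ * changeLevel hd η}

/-- The sum of `f` over the set `F` of characters. -/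
noncomputable def S (F : Set (DirichletCharacter ℂ q)) (f : DirichletCharacter ℂ q → ℕ) : ℝ :=
  ∑ᶠ χ ∈ F, (f χ : ℝ)

end defs

/-- The function of Montgomery and Taylor, `c(1) = c_MT⁻¹ = 1.3274...`. -/
noncomputable def c (h : ℝ) : ℝ := h / 2 + Real.cot (h / Real.sqrt 2) / Real.sqrt 2

section

variable {q : ℕ} [NeZero q]

open Pool.Agent.D0H77.EM (FF mem_FF)

lemma fam_eq {d : ℕ} (hd : d ∣ q) (ψ : DirichletCharacter ℂ q) :
    fam hd ψ = (FF d ψ : Set (DirichletCharacter ℂ q)) := by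
  ext χ
  rw [Finset.mem_coe, mem_FF]
  unfold fam
  rw [Set.mem_ofPred_eq]
  refine and_congr_right fun _ => ?_
  rw [← mem_conductorSet_iff_conductor_dvd _ hd, mem_conductorSet_iff]
  constructor
  · rintro ⟨η, rfl⟩
    rw [mul_comm ψ, mul_inv_cancel_right]
    exact changeLevel_factorsThrough η hd
  · rintro ⟨h, η, hη⟩
    refine ⟨η, ?_⟩
    rw [← hη, mul_comm χ, mul_inv_cancel_left]

omit [NeZero q] in
lemma FF_eq {d : ℕ} {ψ ψ' : DirichletCharacter ℂ q} (h : ψ' ∈ FF d ψ) : FF d ψ' = FF d ψ := by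
  rw [mem_FF] at h
  ext χ
  rw [mem_FF, mem_FF]
  refine and_congr_right fun _ => ?_
  constructor
  · intro h1
    have e1 : χ * ψ⁻¹ = (χ * ψ'⁻¹) * (ψ' * ψ⁻¹) := by
      rw [mul_assoc, inv_mul_cancel_left]
    rw [e1]
    exact (conductor_mul_dvd_lcm_conductor _ _).trans (Nat.lcm_dvd h1 h.2)
  · intro h1
    have e1 : χ * ψ'⁻¹ = (χ * ψ⁻¹) * (ψ' * ψ⁻¹)⁻¹ := by
      rw [mul_inv, inv_inv, mul_comm ψ'⁻¹ ψ, mul_assoc, inv_mul_cancel_left]
    rw [e1]
    refine (conductor_mul_dvd_lcm_conductor _ _).trans (Nat.lcm_dvd h1 ?_)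
    rw [conductor_inv]
    exact h.2

lemma S_eq {d : ℕ} (hd : d ∣ q) (ψ : DirichletCharacter ℂ q) (f : DirichletCharacter ℂ q → ℕ) :
    S (fam hd ψ) f = ∑ χ ∈ FF d ψ, (f χ : ℝ) := by
  unfold S
  rw [fam_eq hd ψ]
  exact finsum_mem_coe_finset _ _

lemma zeros_eq (χ : DirichletCharacter ℂ q) (T H : ℝ) :
    zeros χ T H = H370.zset (H385.LF q χ) T (T + H) := by
  rw [H385.LF_eq]
  rfl

lemma N_eq (T H : ℝ) (χ : DirichletCharacter ℂ q) : N T H χ = H370.NN (H385.LF q χ) T (T + H) := by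
  unfold N H370.NN
  rw [zeros_eq, H385.LF_eq]
  rfl

lemma Nd_eq (T H : ℝ) (χ : DirichletCharacter ℂ q) : Nd T H χ = H370.Nd (H385.LF q χ) T (T + H) := by
  unfold Nd H370.Nd
  rw [zeros_eq]

lemma Ns_eq (T H : ℝ) (χ : DirichletCharacter ℂ q) : Ns T H χ = H370.Ns (H385.LF q χ) T (T + H) := by
  unfold Ns H370.Ns
  rw [zeros_eq, H385.LF_eq]
  rfl

lemma Noff_eq (T H : ℝ) (χ : DirichletCharacter ℂ q) :
    Noff T H χ = Pool.Agent.D0H77.EM.NF (H385.LF q χ) T (T + H) := by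
  unfold Noff Pool.Agent.D0H77.EM.NF
  rw [zeros_eq]

lemma excess_eq (j : ℕ) (T H : ℝ) (χ : DirichletCharacter ℂ q) :
    excess j T H χ = Pool.Agent.D0H77.EM.EX j (H385.LF q χ) T (T + H) := by
  unfold excess Pool.Agent.D0H77.EM.EX
  rw [zeros_eq, H385.LF_eq]
  rfl

/-- the set of zeros that are counted is finite -/
lemma zeros_finite {χ : DirichletCharacter ℂ q} (hχ : χ.IsPrimitive) {T H : ℝ} (hT : 1 ≤ T) :
    (zeros χ T H).Finite := by
  obtain ⟨A, hA, hgood⟩ := H385.good_dirichlet_U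
  rw [zeros_eq, H385.LF_eq]
  exact H385.zset_finite_U hA (by exact_mod_cast NeZero.one_le) (hgood q χ hχ) T (T + H) hT

end

open Pool.Agent.D0H77.EM (FF mem_FF)

/-- **Main theorem.**  Uniformly for all moduli `q`, all divisors `d` of `q`, all characters `ψ`
modulo `q`, all `T` and all `H ≤ T` with `K ≤ H`, `K √(log (q T)) ≤ H` and `(q T) ^ h ≤ d H`, the
sums `S` being over the family `fam hd ψ` and the zeros being those with ordinate in `(T, T + H]`:
(1) `(2 - c(h) - ε) S(N) ≤ S(Ns)`, the simple zeros on the critical line;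
(2) `(2 j + 1 - c(h) - ε) S(N) + S(excess) + ((j² + 1)/2) S(Noff) ≤ j (j + 1) S(Nd)` for every
`j ≥ 1`, the distinct zeros;
(3) `(3 h/(3 + h²) - ε) S(N) ≤ S(Nd)`;
(4) all primitive characters of any single modulus `q`: `0.6724 S(N) ≤ S(Ns)` and
`0.8362 S(N) ≤ S(Nd)` if `K ≤ H`, `K √(log (q T)) ≤ H ≤ T` and `(T/H) ^ K ≤ q T`;
(5) `c` is decreasing on `(0, 1]`, `c(h) ≤ 1/h + h/3` and `c(1) ≤ 1.327503`. -/
theorem result :
    (∀ h ε : ℝ, 0 < h → h ≤ 1 → 0 < ε → ∃ K : ℝ,
      ∀ (q : ℕ) [NeZero q] (d : ℕ) (hd : d ∣ q) (ψ : DirichletCharacter ℂ q) (T H : ℝ),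
        K ≤ H → K * Real.sqrt (Real.log (q * T)) ≤ H → H ≤ T → (q * T) ^ h ≤ d * H →
        (2 - c h - ε) * S (fam hd ψ) (N T H) ≤ S (fam hd ψ) (Ns T H)) ∧
    (∀ (j : ℕ) (h ε : ℝ), 1 ≤ j → 0 < h → h ≤ 1 → 0 < ε → ∃ K : ℝ,
      ∀ (q : ℕ) [NeZero q] (d : ℕ) (hd : d ∣ q) (ψ : DirichletCharacter ℂ q) (T H : ℝ),
        K ≤ H → K * Real.sqrt (Real.log (q * T)) ≤ H → H ≤ T → (q * T) ^ h ≤ d * H →
        (2 * j + 1 - c h - ε) * S (fam hd ψ) (N T H) + S (fam hd ψ) (excess j T H) +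
          ((j : ℝ) ^ 2 + 1) / 2 * S (fam hd ψ) (Noff T H) ≤
            j * (j + 1) * S (fam hd ψ) (Nd T H)) ∧
    (∀ h ε : ℝ, 0 < h → h ≤ 1 → 0 < ε → ∃ K : ℝ,
      ∀ (q : ℕ) [NeZero q] (d : ℕ) (hd : d ∣ q) (ψ : DirichletCharacter ℂ q) (T H : ℝ),
        K ≤ H → K * Real.sqrt (Real.log (q * T)) ≤ H → H ≤ T → (q * T) ^ h ≤ d * H →
        (3 * h / (3 + h ^ 2) - ε) * S (fam hd ψ) (N T H) ≤ S (fam hd ψ) (Nd T H)) ∧
    (∃ K : ℝ, ∀ (q : ℕ) [NeZero q] (T H : ℝ),
        K ≤ H → K * Real.sqrt (Real.log (q * T)) ≤ H → H ≤ T → (T / H) ^ K ≤ q * T →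
        0.6724 * S {χ : DirichletCharacter ℂ q | χ.IsPrimitive} (N T H) ≤
          S {χ : DirichletCharacter ℂ q | χ.IsPrimitive} (Ns T H) ∧
        0.8362 * S {χ : DirichletCharacter ℂ q | χ.IsPrimitive} (N T H) ≤
          S {χ : DirichletCharacter ℂ q | χ.IsPrimitive} (Nd T H)) ∧
    ((∀ a b : ℝ, 0 < a → a ≤ b → b ≤ 1 → c b ≤ c a) ∧
      (∀ h : ℝ, 0 < h → h ≤ 1 → c h ≤ 1 / h + h / 3) ∧ c 1 ≤ 1.327503) := by
  -- from a primitive representative to an arbitrary one
  have key : ∀ (h K : ℝ)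
      (P : (q : ℕ) → [NeZero q] → Finset (DirichletCharacter ℂ q) → ℝ → ℝ → Prop),
      (∀ (q : ℕ) [NeZero q] (T H : ℝ), P q ∅ T H) →
      (∀ (q : ℕ) [NeZero q] (d : ℕ) (_ : d ∣ q) (ψ : DirichletCharacter ℂ q) (_ : ψ.IsPrimitive)
        (T H : ℝ), K ≤ H → K * Real.sqrt (Real.log (q * T)) ≤ H → H ≤ T → (q * T) ^ h ≤ d * H →
          P q (FF d ψ) T H) →
      ∀ (q : ℕ) [NeZero q] (d : ℕ) (_ : d ∣ q) (ψ : DirichletCharacter ℂ q)
        (T H : ℝ), K ≤ H → K * Real.sqrt (Real.log (q * T)) ≤ H → H ≤ T → (q * T) ^ h ≤ d * H →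
          P q (FF d ψ) T H := by
    intro h K P h0 hP q _ d hd ψ T H h1 h2 h3 h4
    rcases (FF d ψ).eq_empty_or_nonempty with he | ⟨ψ', hψ'⟩
    · rw [he]; exact h0 q T H
    · rw [← FF_eq hψ']
      exact hP q d hd ψ' (mem_FF.1 hψ').1 T H h1 h2 h3 h4
  have part1 : ∀ h ε : ℝ, 0 < h → h ≤ 1 → 0 < ε → ∃ K : ℝ,
      ∀ (q : ℕ) [NeZero q] (d : ℕ) (hd : d ∣ q) (ψ : DirichletCharacter ℂ q) (T H : ℝ),
        K ≤ H → K * Real.sqrt (Real.log (q * T)) ≤ H → H ≤ T → (q * T) ^ h ≤ d * H →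
        (2 - c h - ε) * S (fam hd ψ) (N T H) ≤ S (fam hd ψ) (Ns T H) := by
    intro h ε hh0 hh1 hε
    obtain ⟨K, _, hK⟩ := Pool.Agent.D0H77.ES.fin_s h ε hh0 hh1 hε
    refine ⟨K, fun q _ d hd ψ T H h1 h2 h3 h4 => ?_⟩
    rw [S_eq, S_eq]
    simp only [N_eq, Ns_eq]
    exact key h K (fun q _ F T H => (2 - c h - ε) *
        ∑ χ ∈ F, (H370.NN (H385.LF q χ) T (T + H) : ℝ) ≤
      ∑ χ ∈ F, (H370.Ns (H385.LF q χ) T (T + H) : ℝ)) (fun q _ T H => by simp) hK
      q d hd ψ T H h1 h2 h3 h4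
  have part2 : ∀ (j : ℕ) (h ε : ℝ), 1 ≤ j → 0 < h → h ≤ 1 → 0 < ε → ∃ K : ℝ,
      ∀ (q : ℕ) [NeZero q] (d : ℕ) (hd : d ∣ q) (ψ : DirichletCharacter ℂ q) (T H : ℝ),
        K ≤ H → K * Real.sqrt (Real.log (q * T)) ≤ H → H ≤ T → (q * T) ^ h ≤ d * H →
        (2 * j + 1 - c h - ε) * S (fam hd ψ) (N T H) + S (fam hd ψ) (excess j T H) +
          ((j : ℝ) ^ 2 + 1) / 2 * S (fam hd ψ) (Noff T H) ≤
            j * (j + 1) * S (fam hd ψ) (Nd T H) := by
    intro j h ε _ hh0 hh1 hε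
    obtain ⟨K, _, hK⟩ := Pool.Agent.D0H77.ES.fin_j j h ε hh0 hh1 hε
    refine ⟨K, fun q _ d hd ψ T H h1 h2 h3 h4 => ?_⟩
    rw [S_eq, S_eq, S_eq, S_eq]
    simp only [N_eq, Nd_eq, Noff_eq, excess_eq]
    exact key h K (fun q _ F T H => (2 * j + 1 - c h - ε) *
        ∑ χ ∈ F, (H370.NN (H385.LF q χ) T (T + H) : ℝ) +
        ∑ χ ∈ F, (Pool.Agent.D0H77.EM.EX j (H385.LF q χ) T (T + H) : ℝ) +
        ((j : ℝ) ^ 2 + 1) / 2 *
          ∑ χ ∈ F, (Pool.Agent.D0H77.EM.NF (H385.LF q χ) T (T + H) : ℝ) ≤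
      j * (j + 1) * ∑ χ ∈ F, (H370.Nd (H385.LF q χ) T (T + H) : ℝ)) (fun q _ T H => by simp) hK
      q d hd ψ T H h1 h2 h3 h4
  have part3 : ∀ h ε : ℝ, 0 < h → h ≤ 1 → 0 < ε → ∃ K : ℝ,
      ∀ (q : ℕ) [NeZero q] (d : ℕ) (hd : d ∣ q) (ψ : DirichletCharacter ℂ q) (T H : ℝ),
        K ≤ H → K * Real.sqrt (Real.log (q * T)) ≤ H → H ≤ T → (q * T) ^ h ≤ d * H →
        (3 * h / (3 + h ^ 2) - ε) * S (fam hd ψ) (N T H) ≤ S (fam hd ψ) (Nd T H) := by
    intro h ε hh0 hh1 hε
    obtain ⟨K, _, hK⟩ := Pool.Agent.D0H77.ES.fin_pos h ε hh0 hh1 hε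
    refine ⟨K, fun q _ d hd ψ T H h1 h2 h3 h4 => ?_⟩
    rw [S_eq, S_eq]
    simp only [N_eq, Nd_eq]
    exact key h K (fun q _ F T H => (3 * h / (3 + h ^ 2) - ε) *
      ∑ χ ∈ F, (H370.NN (H385.LF q χ) T (T + H) : ℝ) ≤
      ∑ χ ∈ F, (H370.Nd (H385.LF q χ) T (T + H) : ℝ)) (fun q _ T H => by simp) hK
      q d hd ψ T H h1 h2 h3 h4
  have c1 : c 1 ≤ 1.327503 := Pool.Agent.N880.HD.cH_le le_rfl one_le_two
  refine ⟨part1, part2, part3, ?_, fun a b h1 h2 h3 => Pool.Agent.N880.HD.cH_anti h1 h2 (by linarith),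
    Pool.Agent.D0H77.EM.cH_le', c1⟩
  -- an exponent `h < 1` with almost the same constant
  obtain ⟨h, hh0, hh1, hc⟩ : ∃ h : ℝ, 0 < h ∧ h < 1 ∧ c h ≤ 1.32752 := by
    have hcont : ContinuousAt c 1 := by
      have hsin : Real.sin (1 / Real.sqrt 2) ≠ 0 := by
        have h1 : (1 : ℝ) < Real.sqrt 2 := Real.one_lt_sqrt_two
        have h2 : (1 : ℝ) / Real.sqrt 2 < 1 := by rw [div_lt_one (by linarith)]; exact h1
        exact (Real.sin_pos_of_pos_of_lt_pi (by positivity)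
          (by linarith [Real.pi_gt_three])).ne'
      have he : c = fun h : ℝ => h / 2 +
          Real.cos (h / Real.sqrt 2) / Real.sin (h / Real.sqrt 2) / Real.sqrt 2 := by
        funext h
        unfold c
        rw [Real.cot_eq_cos_div_sin]
      rw [he]
      have : ContinuousAt (fun h : ℝ => Real.cos (h / Real.sqrt 2) / Real.sin (h / Real.sqrt 2)) 1 :=
        ContinuousAt.div (by fun_prop) (by fun_prop) hsin
      exact ((continuousAt_id.div_const 2)).add (this.div_const _)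
    have hev : ∀ᶠ h in nhds (1 : ℝ), c h < 1.32752 :=
      hcont.eventually_lt_const (lt_of_le_of_lt c1 (by norm_num))
    rw [Metric.eventually_nhds_iff] at hev
    obtain ⟨δ, hδ, hev⟩ := hev
    refine ⟨1 - min (δ / 2) (1 / 2), ?_, ?_, ?_⟩
    · have := min_le_right (δ / 2) (1 / 2 : ℝ)
      linarith
    · have : 0 < min (δ / 2) (1 / 2 : ℝ) := lt_min (by linarith) (by norm_num)
      linarith
    · apply (hev _).le
      rw [Real.dist_eq]
      have h1 : 0 < min (δ / 2) (1 / 2 : ℝ) := lt_min (by linarith) (by norm_num)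
      have h2 := min_le_left (δ / 2) (1 / 2 : ℝ)
      rw [show 1 - min (δ / 2) (1 / 2 : ℝ) - 1 = -(min (δ / 2) (1 / 2 : ℝ)) by ring, abs_neg,
        abs_of_pos h1]
      linarith
  obtain ⟨K1, hK1⟩ := part1 h 0.00004 hh0 hh1.le (by norm_num)
  obtain ⟨K2, hK2⟩ := part2 1 h 0.00004 le_rfl hh0 hh1.le (by norm_num)
  obtain ⟨K, hKdef⟩ : ∃ K : ℝ, K = max (max K1 K2) (max 1 (1 / (1 - h))) := ⟨_, rfl⟩
  have k1 : K1 ≤ K := hKdef ▸ (le_max_left _ _).trans (le_max_left _ _)
  have k2 : K2 ≤ K := hKdef ▸ (le_max_right _ _).trans (le_max_left _ _)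
  have k3 : 1 ≤ K := hKdef ▸ (le_max_left _ _).trans (le_max_right _ _)
  have k4 : 1 / (1 - h) ≤ K := hKdef ▸ (le_max_right _ _).trans (le_max_right _ _)
  refine ⟨K, fun q _ T H h1 h2 h3 h4 => ?_⟩
  have hH0 : 0 < H := by linarith
  have hT0 : 0 < T := by linarith
  have hq1 : (1 : ℝ) ≤ q := by exact_mod_cast NeZero.one_le
  have hqT : 1 ≤ (q : ℝ) * T := by nlinarith
  have hqT0 : 0 < (q : ℝ) * T := by linarith
  have h5 : ((q : ℝ) * T) ^ h ≤ q * H := by
    have e1 : T / H ≤ ((q : ℝ) * T) ^ (1 - h) := by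
      have e2 : ((T / H) ^ K) ^ (1 / K) ≤ ((q : ℝ) * T) ^ (1 / K) :=
        Real.rpow_le_rpow (by positivity) h4 (by positivity)
      rw [← Real.rpow_mul (by positivity), mul_one_div_cancel (by linarith), Real.rpow_one] at e2
      refine e2.trans (Real.rpow_le_rpow_of_exponent_le hqT ?_)
      rw [div_le_iff₀ (by linarith)] at k4 ⊢
      linarith
    have e3 : ((q : ℝ) * T) ^ h * (T / H) ≤ q * T := by
      calc ((q : ℝ) * T) ^ h * (T / H) ≤ ((q : ℝ) * T) ^ h * ((q : ℝ) * T) ^ (1 - h) :=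
            mul_le_mul_of_nonneg_left e1 (by positivity)
        _ = q * T := by
            rw [← Real.rpow_add hqT0]
            simp
    rw [mul_div_assoc', div_le_iff₀ hH0] at e3
    have e4 : ((q : ℝ) * T) ^ h * T ≤ q * H * T := by linarith
    exact le_of_mul_le_mul_right e4 hT0
  have hsq : 0 ≤ Real.sqrt (Real.log (q * T)) := Real.sqrt_nonneg _
  have hfam : fam (dvd_refl q) (1 : DirichletCharacter ℂ q) =
      {χ : DirichletCharacter ℂ q | χ.IsPrimitive} := by
    ext χ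
    unfold fam
    rw [Set.mem_ofPred_eq, Set.mem_ofPred_eq]
    refine ⟨fun h => h.1, fun h => ⟨h, χ, ?_⟩⟩
    rw [changeLevel_self, one_mul]
  have a1 := hK1 q q (dvd_refl q) 1 T H (k1.trans h1)
    ((mul_le_mul_of_nonneg_right k1 hsq).trans h2) h3 h5
  have a2 := hK2 q q (dvd_refl q) 1 T H (k2.trans h1)
    ((mul_le_mul_of_nonneg_right k2 hsq).trans h2) h3 h5
  rw [hfam] at a1 a2
  have nn : ∀ f : DirichletCharacter ℂ q → ℕ,
      0 ≤ S {χ : DirichletCharacter ℂ q | χ.IsPrimitive} f := by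
    intro f
    unfold S
    exact finsum_nonneg fun χ => finsum_nonneg fun _ => Nat.cast_nonneg _
  have n1 := nn (N T H)
  have n2 := nn (excess 1 T H)
  have n3 := nn (Noff T H)
  push_cast at a2
  constructor
  · refine le_trans (mul_le_mul_of_nonneg_right ?_ n1) a1
    norm_num at hc ⊢
    linarith
  · have e1 : (1.6724 : ℝ) ≤ 2 * 1 + 1 - c h - 0.00004 := by
      norm_num at hc ⊢
      linarith
    have e2 := mul_le_mul_of_nonneg_right e1 n1
    have e3 : 0 ≤ ((1 : ℝ) ^ 2 + 1) / 2 *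
        S {χ : DirichletCharacter ℂ q | χ.IsPrimitive} (Noff T H) := by positivity
    have e4 : (0.8362 : ℝ) * S {χ : DirichletCharacter ℂ q | χ.IsPrimitive} (N T H) =
        1.6724 * S {χ : DirichletCharacter ℂ q | χ.IsPrimitive} (N T H) / 2 := by ring
    rw [e4]
    linarith

end Pool.Agent.Results.MP_f259ea_nt.HybridCosetFamilies
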