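import Pool.Agent.D0H71.CM.ZerosL

/-!
# Distinct zeros of `L(s, χ)` in ALL very short intervals near the values of compositions of multiplicative functions

Let `χ` be a primitive Dirichlet character (modulus `1`: the Riemann zeta function), `0 < η < 1` and `ε > 0`. There is `κ > 0`
such that for all `k` and all compositions `F_1, …, F_k` of functions of the class `LM` (for example `F m = φ (σ (φ m))`), all
real vectors `α ≠ 0` and all `U`, for all but `X ^ k / (log X) ^ U` of the tuples `m` in `[1, X] ^ k`: for ALL real `t ≥ 1` with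
`|t - ∑ α_i F_i(m_i)| ≤ (∑ F_i(m_i)) ^ κ` and ALL `H` with `t ^ η ≤ H ≤ t` the distinct zeros in `(t, t + H]` are at least the
share `(2 j + 1 - c ((1 + η) / 2)) / (j (j + 1)) - ε` of all (`j ≥ 1` any integer), in particular at least `17 / 36` for every
`η > 0`.

Here `c(h) = h/2 + cot(h/√2)/√2 ≤ 1/h + h/3`. For ALL `t` only the shares with `c(η)` are known (`EveryShortInterval`), for example
`3 η / (3 + η ^ 2)` of distinct zeros, which tends to zero with `η`; with `c ((1 + η) / 2)` it was known for almost all `t`, one `H`
at a time. The values of `F` are a thin set and they are taken with very large multiplicities; no fibre of `F` is understood.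

Proof: the exceptional sets of `EveryShortInterval`, of measure `T ^ (1 - δ)` for one length, for a geometric sequence of
lengths; an interval `(t, t + H]` contains `(t', t' + H']` for all `t' ∈ [t, t + 2]`, `H'` the next smaller length of the
sequence, with nearly the same number of zeros: so all the exceptional pairs `(t, H)` lie over `X ^ (1 - δ')` unit intervals.
Compositions of multiplicative functions avoid the neighbourhood of such sets (`Pool.Agent.D0H71.CM`).
-/

set_option autoImplicit false

open Filter Topology Complex MeasureTheory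

namespace Pool.Agent.Results.MP_f259ea_nt.IteratedFunctions

open Pool.Agent.N733.TG (LM lm_totient lm_sigma)
open Pool.Agent.D0H71.CM (Comp)
open Pool.Agent.D0H71.CM.ZerosL (AllWindows distinct distinct47 lin_windows)
open Pool.Agent.Results.MP_f259ea_nt.EveryShortInterval (N Nd c)

/-- **Theorem.** Let `χ` be a primitive Dirichlet character, `0 < η < 1`, `ε > 0`. In ALL the intervals `(t, t + H]`,
`t ^ η ≤ H ≤ t`, for ALL `t` near `∑ α_i F_i(m_i)`, for almost all the tuples `m` (`AllWindows`), the distinct zeros are at least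
the share `(2 j + 1 - c ((1 + η) / 2)) / (j (j + 1)) - ε` of all, for every `j ≥ 1`; in particular they are at least the share
`17 / 36`, for every `η > 0`. Euler's function and the sum of the divisors belong to `LM`; `c h ≤ 1 / h + h / 3` for
`0 < h ≤ 1`. -/
theorem result (q : ℕ) [NeZero q] (χ : DirichletCharacter ℂ q) (hχ : χ.IsPrimitive) :
    (∀ (j : ℕ) (η ε : ℝ), 1 ≤ j → 0 < η → η < 1 → 0 < ε → AllWindows (fun t H : ℝ =>
      ((2 * j + 1 - c ((1 + η) / 2)) / (j * (j + 1)) - ε) * (N χ t (t + H) : ℝ) ≤ (Nd χ t (t + H) : ℝ)) η) ∧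
    (∀ η : ℝ, 0 < η → η < 1 → AllWindows (fun t H : ℝ =>
      17 / 36 * (N χ t (t + H) : ℝ) ≤ (Nd χ t (t + H) : ℝ)) η) ∧
    (LM Nat.totient ∧ LM (fun m => ∑ d ∈ m.divisors, d)) ∧
    ∀ h : ℝ, 0 < h → h ≤ 1 → c h ≤ 1 / h + h / 3 :=
  ⟨fun j η ε hj h0 h1 hε => lin_windows (distinct χ hχ j hj h0 h1 hε), fun η h0 h1 => lin_windows (distinct47 χ hχ h0 h1),
    ⟨lm_totient, lm_sigma⟩, H295SI.cc_le⟩

end Pool.Agent.Results.MP_f259ea_nt.IteratedFunctions
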