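import Pool.Agent.D0H71.CM.ZerosM

/-!
# Distinct zeros of `L(s, χ)` in ALL very short intervals around thin sequences, for most amplitudes

Let `χ` be a primitive Dirichlet character (modulus `1`: the Riemann zeta function), `0 < η < 1`, `ε > 0` and `j ≥ 1`. We consider the
real numbers `t` such that in ALL the intervals `(t, t + H]`, `t ^ η ≤ H ≤ t`, the distinct zeros are at least the share
`(2 j + 1 - c ((1 + η) / 2)) / (j (j + 1)) - ε` of all (for `j = 2` and small `ε` this is larger than `17 / 36`, for every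
`η > 0`). There are `κ > 0` and `τ > 0` such that for every sequence
`v ≥ 1` with exponent of convergence at most `τ` (for example `b ^ n`, `n!` and `n ^ d` with `d ≥ 1 / τ`) and all `α > 0` outside a
set of Hausdorff dimension less than one, ALL `t` with `|t - α v_n| ≤ v_n ^ κ` have this property, for all but finitely many `n`. For
the sequence `n ^ d` with any real exponent `d > 1` it holds for all `n ≤ X` but `X ^ (1 - δ)`, again for all the `t` with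
`|t - α n ^ d| ≤ (α n ^ d) ^ κ`.

Before, the constants with `c ((1 + η) / 2)` were known for almost all `t ∈ [T, 2 T]`, for one length `H` at a time, and for all `t`
only those with `c (η)`.
-/

set_option autoImplicit false

open Filter Topology Complex MeasureTheory

namespace Pool.Agent.Results.MP_f259ea_nt.TypicalHeights

open Pool.Agent.Y854.GM (ExpLe)
open Pool.Agent.D0H71.CM.ZerosL (Sparse distinct)
open Pool.Agent.D0H71.CM.ZerosM (metric_windows metric_pow)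
open Pool.Agent.Results.MP_f259ea_nt.EveryShortInterval (N Nd c)

/-- in all the intervals `(t, t + H]`, `t ^ η ≤ H ≤ t`, the property `Q t H` holds, for all the `t` with `|t - x| ≤ r` -/
def AllShort (Q : ℝ → ℝ → Prop) (η x r : ℝ) : Prop :=
  ∀ t H : ℝ, |t - x| ≤ r → t ^ η ≤ H → H ≤ t → Q t H

/-- the two properties of the sequences and powers -/
def Typical (Q : ℝ → ℝ → Prop) (η : ℝ) : Prop :=
  (∃ κ τ : ℝ, 0 < κ ∧ 0 < τ ∧ ∀ v : ℕ → ℝ, (∀ n, 1 ≤ v n) → ExpLe v τ → ∃ E : Set ℝ, dimH E < 1 ∧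
    ∀ α : ℝ, 0 < α → α ∉ E → ∃ n₀ : ℕ, ∀ n : ℕ, n₀ ≤ n → AllShort Q η (α * v n) ((v n) ^ κ)) ∧
  ∃ κ : ℝ, 0 < κ ∧ ∀ d : ℝ, 1 < d → ∃ E : Set ℝ, dimH E < 1 ∧ ∀ α : ℝ, 0 < α → α ∉ E →
    ∃ δ : ℝ, 0 < δ ∧ ∃ X₀ : ℕ, ∀ X : ℕ, X₀ ≤ X →
      ({n : ℕ | 1 ≤ n ∧ n ≤ X ∧ ¬ AllShort Q η (α * (n : ℝ) ^ d) ((α * (n : ℝ) ^ d) ^ κ)}.ncard : ℝ) ≤ (X : ℝ) ^ (1 - δ)

lemma typical {Q : ℝ → ℝ → Prop} {η : ℝ} (h : ∃ θ : ℝ, 0 ≤ θ ∧ θ < 1 ∧ Sparse Q η θ) : Typical Q η := by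
  obtain ⟨θ, a, b, h⟩ := h
  exact ⟨metric_windows a b h, metric_pow a b h⟩

/-- **Theorem.** Let `χ` be a primitive Dirichlet character, `0 < η < 1`, `ε > 0`. For every `j ≥ 1` the distinct zeros in
`(t, t + H]` are at least the share `(2 j + 1 - c ((1 + η) / 2)) / (j (j + 1)) - ε` of all, for all the `t` and `H` as in
`Typical`. The sequences `(n + 1) ^ d` and `b ^ n` have exponent of convergence at most `1 / d` and `0`;
`c h ≤ 1 / h + h / 3` for `0 < h ≤ 1`. -/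
theorem result (q : ℕ) [NeZero q] (χ : DirichletCharacter ℂ q) (hχ : χ.IsPrimitive) :
    (∀ (j : ℕ) (η ε : ℝ), 1 ≤ j → 0 < η → η < 1 → 0 < ε → Typical (fun t H : ℝ =>
      ((2 * j + 1 - c ((1 + η) / 2)) / (j * (j + 1)) - ε) * (N χ t (t + H) : ℝ) ≤ (Nd χ t (t + H) : ℝ)) η) ∧
    ((∀ d : ℝ, 0 < d → ExpLe (fun n : ℕ => ((n : ℝ) + 1) ^ d) (1 / d)) ∧
      ∀ b : ℝ, 1 < b → ExpLe (fun n : ℕ => b ^ n) 0) ∧
    ∀ h : ℝ, 0 < h → h ≤ 1 → c h ≤ 1 / h + h / 3 :=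
  ⟨fun j η ε hj h0 h1 hε => typical (distinct χ hχ j hj h0 h1 hε),
    ⟨fun d hd => Pool.Agent.Y854.GM.expLe_pow d hd, fun b hb => Pool.Agent.Y854.GM.expLe_geom b hb⟩, H295SI.cc_le⟩

end Pool.Agent.Results.MP_f259ea_nt.TypicalHeights
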